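import Pool.Agent.W500.CS.Stm

/-!
# CQ-SEP
-/

set_option autoImplicit false

open Set Filter Topology

namespace Pool.Agent.W160.CQ.SEP

open Pool.Agent.W500.CS

theorem main : S_SEP := by
  intro r ψ h
  have h1 : ∀ᶠ x in 𝓝 (0 : ℝ), ∀ i, AnalyticAt ℝ (ψ i) x :=
    eventually_all.2 fun i => (h i).eventually_analyticAt
  have h2 : ∀ i j, (∀ᶠ x in 𝓝 (0 : ℝ), ψ i x = ψ j x) ∨
      (∀ᶠ x in 𝓝 (0 : ℝ), x ≠ 0 → ψ i x ≠ ψ j x) := by
    intro i j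
    rcases ((h i).sub (h j)).eventually_eq_zero_or_eventually_ne_zero with h3 | h3
    · left
      filter_upwards [h3] with x hx
      exact sub_eq_zero.1 hx
    · right
      rw [eventually_nhdsWithin_iff] at h3
      filter_upwards [h3] with x hx hx0 he
      exact hx hx0 (sub_eq_zero.2 he)
  have h3 : ∀ᶠ x in 𝓝 (0 : ℝ), ∀ i j,
      ((∀ᶠ x in 𝓝 (0 : ℝ), ψ i x = ψ j x) → ψ i x = ψ j x) ∧
      ((¬ ∀ᶠ x in 𝓝 (0 : ℝ), ψ i x = ψ j x) → x ≠ 0 → ψ i x ≠ ψ j x) := by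
    refine eventually_all.2 fun i => eventually_all.2 fun j => ?_
    by_cases hc : ∀ᶠ x in 𝓝 (0 : ℝ), ψ i x = ψ j x
    · filter_upwards [hc] with x hx
      exact ⟨fun _ => hx, fun h' => absurd hc h'⟩
    · filter_upwards [(h2 i j).resolve_left hc] with x hx
      exact ⟨fun h' => absurd h' hc, fun _ => hx⟩
  obtain ⟨ε, hε, hb⟩ := Metric.eventually_nhds_iff_ball.1 (h1.and h3)
  have hb' : ∀ x ∈ Ioo (-ε) ε, (∀ i, AnalyticAt ℝ (ψ i) x) ∧ ∀ i j,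
      ((∀ᶠ x in 𝓝 (0 : ℝ), ψ i x = ψ j x) → ψ i x = ψ j x) ∧
      ((¬ ∀ᶠ x in 𝓝 (0 : ℝ), ψ i x = ψ j x) → x ≠ 0 → ψ i x ≠ ψ j x) := by
    intro x hx
    refine hb x ?_
    rw [Real.ball_eq_Ioo]
    simpa using hx
  refine ⟨ε, hε, fun i x hx => (hb' x hx).1 i, fun i j => ?_⟩
  have hsub : ∀ t ∈ Ioo 0 ε, t ∈ Ioo (-ε) ε := fun t ht => ⟨by linarith [ht.1], ht.2⟩
  by_cases hc : ∀ᶠ x in 𝓝 (0 : ℝ), ψ i x = ψ j x
  · left
    exact fun t ht => ((hb' t (hsub t ht)).2 i j).1 hc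
  · right
    have hne : ∀ t ∈ Ioo 0 ε, ψ i t ≠ ψ j t := fun t ht =>
      ((hb' t (hsub t ht)).2 i j).2 hc ht.1.ne'
    have hcont : ContinuousOn (fun t => ψ i t - ψ j t) (Ioo 0 ε) := fun t ht =>
      ((((hb' t (hsub t ht)).1 i).continuousAt).sub
        (((hb' t (hsub t ht)).1 j).continuousAt)).continuousWithinAt
    have hno : ∀ t ∈ Ioo 0 ε, ∀ t' ∈ Ioo 0 ε, ψ i t - ψ j t < 0 → 0 < ψ i t' - ψ j t' →
        False := by
      intro t ht t' ht' h4 h5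
      obtain ⟨u, hu, hu0⟩ := isPreconnected_Ioo.intermediate_value ht ht' hcont
        (show (0 : ℝ) ∈ Icc _ _ from ⟨h4.le, h5.le⟩)
      exact hne u hu (sub_eq_zero.1 hu0)
    have hm : ε / 2 ∈ Ioo 0 ε := ⟨by linarith, by linarith⟩
    rcases lt_or_gt_of_ne (hne _ hm) with h4 | h4
    · left
      intro t ht
      rcases lt_or_gt_of_ne (hne t ht) with h5 | h5
      · exact h5
      · exact (hno _ hm t ht (by linarith) (by linarith)).elim
    · right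
      intro t ht
      rcases lt_or_gt_of_ne (hne t ht) with h5 | h5
      · exact (hno t ht _ hm (by linarith) (by linarith)).elim
      · exact h5

end Pool.Agent.W160.CQ.SEP
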